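import Mathlib
import Pool.Agent.H457HC.Defs
import Pool.Agent.H457HC.UpperFinal
import Pool.Agent.H457HC.Lower

open Pool.Agent.H457HC

namespace Pool.Agent.Results.MP_961199_an.Main

/-- `C` is admissible for the exponents `p, q` if `C > 0` and `‖f‖_q ≤ C^{deg f} ‖f‖_p` for every
`n ≥ 1` and every real-valued function `f` on the hypercube `{-1,1}^n` (`Cube n = Fin n → ℤˣ`), where
`lpNorm p f = (E|f|^p)^{1/p}` and `degree f` is the largest `|S|` with nonzero Fourier–Walsh
coefficient (see `Pool.Agent.H457HC.Defs`). -/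
def Admissible (p q C : ℝ) : Prop :=
  0 < C ∧ ∀ n : ℕ, 1 ≤ n → ∀ f : Cube n → ℝ, lpNorm q f ≤ C ^ degree f * lpNorm p f

/-- The constant `C*_{p,q}` of the problem: the infimum of all admissible `C > 0`. -/
noncomputable def Cstar (p q : ℝ) : ℝ := sInf {C : ℝ | Admissible p q C}

lemma mean_one_of {n : ℕ} (g : Cube n → ℝ) (h : ∀ x, g x = 1) : mean g = 1 := by
  unfold mean
  simp only [h, Finset.sum_const, Finset.card_univ, card_cube, nsmul_eq_mul, mul_one]
  push_cast
  exact div_self (by positivity)

lemma one_le_of_admissible {p q C : ℝ} (hC : Admissible p q C) : 1 ≤ C := by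
  by_contra hlt
  push Not at hlt
  obtain ⟨h0, h⟩ := hC
  let f : Cube 1 → ℝ := fun x => (((x 0 : ℤˣ) : ℤ) : ℝ)
  have habs : ∀ x : Cube 1, |f x| = 1 := by
    intro x
    rcases Int.units_eq_one_or (x 0) with h1 | h1 <;> simp [f, h1]
  have hn : ∀ r : ℝ, lpNorm r f = 1 := by
    intro r
    unfold lpNorm
    rw [mean_one_of _ (fun x => by rw [habs, Real.one_rpow]), Real.one_rpow]
  have h3 : Pool.Agent.H457HC.fourier f {0} ≠ 0 := by
    unfold Pool.Agent.H457HC.fourier
    rw [mean_one_of]
    · norm_num
    · intro x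
      unfold walsh
      rw [Finset.prod_singleton]
      exact unit_mul_self (x 0)
  have h4 : 1 ≤ degree f := by
    have := card_le_degree h3
    simpa using this
  have h5 := h 1 le_rfl f
  rw [hn, hn, mul_one] at h5
  have h6 : C ^ degree f ≤ C ^ 1 := pow_le_pow_of_le_one h0.le hlt.le h4
  rw [pow_one] at h6
  linarith

/-- For all real `1 ≤ p < q` (in particular for `1 < p < q ≤ 2`) one has
`C*_{p,q} = √(2q/p - 1)`; moreover this number is itself admissible. -/
theorem result (p q : ℝ) (hp : 1 ≤ p) (hpq : p < q) :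
    Cstar p q = Real.sqrt (2 * q / p - 1) ∧
      IsLeast {C : ℝ | Admissible p q C} (Real.sqrt (2 * q / p - 1)) := by
  have hL : IsLeast {C : ℝ | Admissible p q C} (Real.sqrt (2 * q / p - 1)) := by
    constructor
    · refine ⟨?_, ?_⟩
      · apply Real.sqrt_pos.2
        have h0 : 0 < p := by linarith
        have : 1 < q / p := by rw [lt_div_iff₀ h0]; linarith
        have h2 : 2 * q / p = 2 * (q / p) := by ring
        rw [h2]
        linarith
      · intro n _ f
        exact upper_bound hp hpq f
    · intro C hC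
      exact lower_bound hp hpq (one_le_of_admissible hC) hC.2
  exact ⟨hL.csInf_eq, hL⟩

end Pool.Agent.Results.MP_961199_an.Main
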